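import Pool.Agent.Helper31.CY.St3

/-!
# Project CY, module ISO (isolated surfaces are rotationally invariant)
-/

set_option autoImplicit false

open Set Topology Filter

namespace Pool.Agent.Helper11.CY

open Pool.Agent.Helper31.CY

private theorem normsq (x : E3) : ‖x‖ ^ 2 = x 0 ^ 2 + x 1 ^ 2 + x 2 ^ 2 := by
  rw [EuclideanSpace.norm_sq_eq, Fin.sum_univ_three]
  simp only [Real.norm_eq_abs, sq_abs]

private theorem rot_dist (θ R : ℝ) (x : E3) (hx : ‖x‖ ≤ R) : dist (rot θ x) x ≤ |θ| * R := by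
  have hR : 0 ≤ R := (norm_nonneg x).trans hx
  rw [dist_eq_norm]
  refine abs_le_of_sq_le_sq' ?_ (mul_nonneg (abs_nonneg _) hR) |>.2
  rw [normsq]
  have e0 : (rot θ x - x) 0 = Real.cos θ * x 0 - Real.sin θ * x 1 - x 0 := by
    simp [rot, pt]
  have e1 : (rot θ x - x) 1 = Real.sin θ * x 0 + Real.cos θ * x 1 - x 1 := by
    simp [rot, pt]
  have e2 : (rot θ x - x) 2 = 0 := by
    simp [rot, pt]
  rw [e0, e1, e2]
  have hcs := Real.sin_sq_add_cos_sq θ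
  have hc := Real.one_sub_sq_div_two_le_cos (x := θ)
  have hid : (Real.cos θ * x 0 - Real.sin θ * x 1 - x 0) ^ 2 +
      (Real.sin θ * x 0 + Real.cos θ * x 1 - x 1) ^ 2 + 0 ^ 2 =
      (2 - 2 * Real.cos θ) * (x 0 ^ 2 + x 1 ^ 2) +
        (Real.sin θ ^ 2 + Real.cos θ ^ 2 - 1) * (x 0 ^ 2 + x 1 ^ 2) := by ring
  rw [hid, hcs, sub_self, zero_mul, add_zero, mul_pow, sq_abs]
  have h1 : x 0 ^ 2 + x 1 ^ 2 ≤ R ^ 2 := by
    have h2 := normsq x
    have h3 : ‖x‖ ^ 2 ≤ R ^ 2 := pow_le_pow_left₀ (norm_nonneg x) hx 2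
    have h4 := sq_nonneg (x 2)
    linarith
  have h5 : 0 ≤ x 0 ^ 2 + x 1 ^ 2 := add_nonneg (sq_nonneg _) (sq_nonneg _)
  calc (2 - 2 * Real.cos θ) * (x 0 ^ 2 + x 1 ^ 2)
      ≤ θ ^ 2 * (x 0 ^ 2 + x 1 ^ 2) := mul_le_mul_of_nonneg_right (by linarith) h5
    _ ≤ θ ^ 2 * R ^ 2 := mul_le_mul_of_nonneg_left h1 (sq_nonneg _)

/-- ISO -/
theorem hISO (hRTI : StRTI) : StISO := by
  obtain ⟨hadd, h0, -, -, hM⟩ := hRTI
  intro S r0 r1 h ε hr0 hS hε hiso
  obtain ⟨R0, hR0⟩ := hS.cpt.isBounded.exists_norm_le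
  have hp : pt r0 0 0 ∈ S := by
    refine hS.sub (Or.inl ?_)
    simp [circ, pt]
  have hR0' : 0 ≤ R0 := (norm_nonneg _).trans (hR0 _ hp)
  have hR : 0 < R0 + 1 := by linarith
  have hSR : ∀ x ∈ S, ‖x‖ ≤ R0 + 1 := fun x hx => (hR0 x hx).trans (by linarith)
  -- small angles
  have hsmall : ∀ φ : ℝ, |φ| * (R0 + 1) < ε → ∀ x ∈ S, rot φ x ∈ S := by
    intro φ hφ x hx
    have hd : Metric.hausdorffDist S (rot φ '' S) ≤ |φ| * (R0 + 1) := by
      refine Metric.hausdorffDist_le_of_mem_dist (mul_nonneg (abs_nonneg _) hR.le) ?_ ?_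
      · intro y hy
        refine ⟨rot φ y, mem_image_of_mem _ hy, ?_⟩
        rw [dist_comm]
        exact rot_dist φ (R0 + 1) y (hSR y hy)
      · rintro _ ⟨y, hy, rfl⟩
        exact ⟨y, hy, rot_dist φ (R0 + 1) y (hSR y hy)⟩
    have he := hiso (rot φ '' S) (hM S r0 r1 h φ hS) (hd.trans_lt hφ)
    rw [← he]
    exact mem_image_of_mem _ hx
  intro θ x hx
  obtain ⟨n, hn⟩ := exists_nat_gt (|θ| * (R0 + 1) / ε)
  have hn0 : (0 : ℝ) < n := (div_nonneg (mul_nonneg (abs_nonneg _) hR.le) hε.le).trans_lt hn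
  have hφ : |θ / n| * (R0 + 1) < ε := by
    rw [abs_div, abs_of_pos hn0, div_mul_eq_mul_div, div_lt_iff₀ hn0]
    rw [div_lt_iff₀ hε] at hn
    linarith
  have hind : ∀ k : ℕ, rot (k * (θ / n)) x ∈ S := by
    intro k
    induction k with
    | zero =>
      rw [Nat.cast_zero, zero_mul, h0]
      exact hx
    | succ k ih =>
      have h1 := hsmall (θ / n) hφ _ ih
      rw [hadd] at h1
      have h2 : θ / n + k * (θ / n) = ((k + 1 : ℕ) : ℝ) * (θ / n) := by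
        push_cast
        ring
      rw [← h2]
      exact h1
  have h3 := hind n
  rwa [mul_div_cancel₀ _ hn0.ne'] at h3

end Pool.Agent.Helper11.CY
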