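import Pool.Agent.Helper31.CY.St1

/-!
# Project CY, module REG (regular points)
-/

set_option autoImplicit false

open Set Topology Filter

namespace Pool.Agent.Helper11.CY

open Pool.Agent.Helper31.CY

private theorem fderiv_zero (f : E3 → ℝ) (p : E3) (h0 : D 0 f p = 0) (h1 : D 1 f p = 0)
    (h2 : D 2 f p = 0) : fderiv ℝ f p = 0 := by
  refine ContinuousLinearMap.ext fun v => ?_
  have hv : v = v 0 • bv 0 + v 1 • bv 1 + v 2 • bv 2 := by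
    ext i
    fin_cases i <;> simp [bv]
  rw [hv, map_add, map_add, map_smul, map_smul, map_smul]
  unfold D at h0 h1 h2
  rw [h0, h1, h2]
  simp

private theorem box_mono {q x : ℝ × ℝ} {ε δ : ℝ} (h : δ ≤ ε) (hx : x ∈ box q δ) :
    x ∈ box q ε := ⟨hx.1.trans_le h, hx.2.trans_le h⟩

/-- REG -/
theorem hREG (hTYP : StTYP) (hRED : StRED) (hHRZ : StHRZ) (hCTN : StCTN) : StREG := by
  intro S hS r z hp hreg
  obtain ⟨f, U, hU, hpU, hf, hf', hSf, hm⟩ := hreg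
  obtain ⟨hV, hF, hD, hP⟩ := hRED S hS f U hU hf hf' hSf hm _ rfl
  have hqV : ((r, z) : ℝ × ℝ) ∈ {w : ℝ × ℝ | pt w.1 0 w.2 ∈ U} := hpU
  have hFq : (fun w : ℝ × ℝ => f (pt w.1 0 w.2)) (r, z) = 0 := (hSf _ hpU).1 hp
  have hPD : ∀ w ∈ {w : ℝ × ℝ | pt w.1 0 w.2 ∈ U}, 0 < w.1 →
      (fun w : ℝ × ℝ => f (pt w.1 0 w.2)) w = 0 →
      PODE (fun w : ℝ × ℝ => f (pt w.1 0 w.2)) w := fun w hw hw1 hFw =>
    (hP w hw1 hw ((hSf _ hw).2 hFw)).1
  have hMer : ∀ x : ℝ × ℝ, 0 ≤ x.1 → x ∈ {w : ℝ × ℝ | pt w.1 0 w.2 ∈ U} →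
      (x ∈ Mer S ↔ (fun w : ℝ × ℝ => f (pt w.1 0 w.2)) x = 0) := by
    intro x hx hxV
    constructor
    · intro h
      exact (hSf _ hxV).1 h.2
    · intro h
      exact ⟨hx, (hSf _ hxV).2 h⟩
  constructor
  · intro hr
    have hpos : ∀ x : ℝ × ℝ, ∀ ε : ℝ, x ∈ box (r, z) (min ε r) → 0 < x.1 := by
      intro x ε hx
      have h1 : |x.1 - r| < min ε r := hx.1
      have h2 := (abs_lt.1 (h1.trans_le (min_le_right _ _))).1
      linarith
    by_cases h1 : D1 (fun w : ℝ × ℝ => f (pt w.1 0 w.2)) (r, z) = 0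
    · right
      have h2 : D2 (fun w : ℝ × ℝ => f (pt w.1 0 w.2)) (r, z) ≠ 0 := by
        rcases (hP (r, z) hr hpU hp).2 with h | h
        · exact absurd h1 h
        · exact h
      obtain ⟨ε, hε, h⟩ := hHRZ _ _ (r, z) hV hqV hF hFq h1 h2 hr.le hPD
      refine ⟨min ε r, lt_min hε hr, fun x hx => ?_⟩
      have hx0 := hpos x ε hx
      obtain ⟨hxV, hx2⟩ := h x (box_mono (min_le_left _ _) hx) hx0.le
      exact (hMer x hx0.le hxV).trans hx2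
    · left
      obtain ⟨m, ε, hε, h⟩ := hCTN _ _ (r, z) hV hqV hF hFq h1 hr hPD
      refine ⟨m, min ε r, lt_min hε hr, fun x hx => ?_⟩
      have hx0 := hpos x ε hx
      obtain ⟨hxV, hx2⟩ := h x (box_mono (min_le_left _ _) hx)
      exact (hMer x hx0.le hxV).trans hx2
  · intro hr
    subst hr
    have hp0 : (pt 0 0 z : E3) 0 = 0 := by simp [pt]
    have hp1 : (pt 0 0 z : E3) 1 = 0 := by simp [pt]
    obtain ⟨h0, h1⟩ := (hTYP S hS (pt 0 0 z) hp).2.2.2.2 f U hU hpU (hf.of_le (by norm_num))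
      (hf' _ hpU) hSf hp0 hp1
    obtain ⟨e1, e2⟩ := hD (0, z) hpU
    have e1' : D1 (fun w : ℝ × ℝ => f (pt w.1 0 w.2)) (0, z) = 0 := e1.trans h0
    have e2' : D2 (fun w : ℝ × ℝ => f (pt w.1 0 w.2)) (0, z) ≠ 0 := by
      rw [e2]
      intro h2
      exact hf' _ hpU (fderiv_zero f _ h0 h1 h2)
    obtain ⟨ε, hε, h⟩ := hHRZ _ _ (0, z) hV hqV hF hFq e1' e2' le_rfl hPD
    refine ⟨ε, hε, fun x hx hx0 => ?_⟩
    obtain ⟨hxV, hx2⟩ := h x hx hx0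
    exact (hMer x hx0 hxV).trans hx2

end Pool.Agent.Helper11.CY
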